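import Mathlib

/-!
# Rigid tuples with arbitrarily large gaps

The tuple `(1, 4, 5, 8, 10, 16, 20)` is rigid: from `v_1 = 1`, `1 + 4 = 5`, `4 + 4 = 8`,
`8 + 8 = 16`, `5 + 5 = 10`, `10 + 10 = 20` and `4 + 16 = 20` one gets `4 (u + 1) = 5 u` for the
second coordinate `u`, so `u = 4`. But `4 > 2 * 1`. In the same way the tuple of the numbers `1`,
`2^k * 2^j` and `(2^k + 1) * 2^j`, `0 ≤ j ≤ k`, is rigid, and its second smallest entry is `2^k`.
So the factor `2` in the question cannot be replaced by any constant.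
-/

set_option autoImplicit false

namespace Pool.Agent.Results.MP_ee20a5_al.UnboundedGaps

/-- The tuple `x` is rigid: it is the only rational tuple which satisfies every equation of the
forms `v_i = 1` and `v_i + v_j = v_k` that `x` satisfies. -/
def Rigid {n : ℕ} (x : Fin n → ℚ) : Prop :=
  ∀ y : Fin n → ℚ, (∀ i, x i = 1 → y i = 1) → (∀ i j k, x i + x j = x k → y i + y j = y k) → y = x

/-- the sequence `1, u, u + 1, 2 u, 2 (u + 1), 4 u, 4 (u + 1), …` with `u = 2 ^ k` -/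
def X (k : ℕ) : ℕ → ℚ
  | 0 => 1
  | 1 => 2 ^ k
  | 2 => 2 ^ k + 1
  | m + 3 => 2 * X k (m + 1)

theorem X_odd (k j : ℕ) : X k (2 * j + 1) = 2 ^ k * 2 ^ j := by
  induction j with
  | zero => simp [X]
  | succ j ih =>
    have : 2 * (j + 1) + 1 = 2 * j + 3 := by ring
    rw [this, X, ih, pow_succ]; ring

theorem X_even (k j : ℕ) : X k (2 * j + 2) = (2 ^ k + 1) * 2 ^ j := by
  induction j with
  | zero => simp [X]
  | succ j ih =>
    have : 2 * (j + 1) + 2 = (2 * j + 1) + 3 := by ring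
    rw [this, X, show 2 * j + 1 + 1 = 2 * j + 2 from rfl, ih, pow_succ]; ring

theorem X_lt (k : ℕ) (hk : 1 ≤ k) (m : ℕ) : 1 ≤ X k m ∧ X k m < X k (m + 1) := by
  have h2 : (2 : ℚ) ≤ 2 ^ k := by
    calc (2 : ℚ) = 2 ^ 1 := (pow_one 2).symm
      _ ≤ 2 ^ k := pow_le_pow_right₀ (by norm_num) hk
  induction m using Nat.strong_induction_on with
  | _ m ih =>
    match m with
    | 0 => simp only [X]; constructor <;> linarith
    | 1 => simp only [X]; constructor <;> linarith
    | 2 => simp only [X]; constructor <;> linarith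
    | m + 3 =>
      have h := ih (m + 1) (by omega)
      simp only [X]
      constructor
      · linarith [h.1]
      · linarith [h.2]

theorem rigid_X (k : ℕ) : Rigid (fun i : Fin (2 * k + 3) => X k i) := by
  intro y h1 h2
  have e0 : y ⟨0, by omega⟩ = 1 := h1 ⟨0, by omega⟩ rfl
  have hodd : ∀ j, (hj : j ≤ k) → y ⟨2 * j + 1, by omega⟩ = 2 ^ j * y ⟨1, by omega⟩ := by
    intro j
    induction j with
    | zero => intro _; simp
    | succ j ih =>
      intro hj
      have h3 := h2 ⟨2 * j + 1, by omega⟩ ⟨2 * j + 1, by omega⟩ ⟨2 * (j + 1) + 1, by omega⟩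
        (by
          show X k (2 * j + 1) + X k (2 * j + 1) = X k (2 * (j + 1) + 1)
          rw [X_odd, X_odd, pow_succ]; ring)
      rw [← h3, ih (by omega), pow_succ]; ring
  have heven : ∀ j, (hj : j ≤ k) → y ⟨2 * j + 2, by omega⟩ = 2 ^ j * y ⟨2, by omega⟩ := by
    intro j
    induction j with
    | zero => intro _; simp
    | succ j ih =>
      intro hj
      have h3 := h2 ⟨2 * j + 2, by omega⟩ ⟨2 * j + 2, by omega⟩ ⟨2 * (j + 1) + 2, by omega⟩
        (by
          show X k (2 * j + 2) + X k (2 * j + 2) = X k (2 * (j + 1) + 2)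
          rw [X_even, X_even, pow_succ]; ring)
      rw [← h3, ih (by omega), pow_succ]; ring
  have h12 : (1 : ℚ) + y ⟨1, by omega⟩ = y ⟨2, by omega⟩ := by
    have h3 := h2 ⟨0, by omega⟩ ⟨1, by omega⟩ ⟨2, by omega⟩
      (by show (1 : ℚ) + 2 ^ k = 2 ^ k + 1; ring)
    rw [e0] at h3
    exact h3
  have hlast : y ⟨2 * k + 1, by omega⟩ + y ⟨1, by omega⟩ = y ⟨2 * k + 2, by omega⟩ := by
    apply h2
    show X k (2 * k + 1) + X k 1 = X k (2 * k + 2)
    rw [X_odd, X_even]
    simp only [X]; ring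
  rw [hodd k le_rfl, heven k le_rfl, ← h12] at hlast
  have hu : y ⟨1, by omega⟩ = 2 ^ k := by linarith
  have hu2 : y ⟨2, by omega⟩ = 2 ^ k + 1 := by rw [← h12, hu]; ring
  funext i
  obtain ⟨i, hi⟩ := i
  rcases Nat.even_or_odd' i with ⟨j, hj | hj⟩
  · rcases j with _ | j
    · subst hj
      exact e0
    · have h4 := heven j (by omega)
      have h5 : i = 2 * j + 2 := by omega
      subst h5
      rw [h4, hu2]
      show _ = X k (2 * j + 2)
      rw [X_even]; ring
  · have h4 := hodd j (by omega)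
    subst hj
    rw [h4, hu]
    show _ = X k (2 * j + 1)
    rw [X_odd]; ring

/-- **Q1 is false, and no constant can replace the factor `2`.** (1) For every constant `C` there is
a rigid tuple `x`, with strictly increasing entries `≥ 1`, and two consecutive entries with
`1 ≤ |x_i|` and `|x_(i+1)| > C |x_i|`. (2) The tuple `(1, 4, 5, 8, 10, 16, 20)` is rigid. -/
theorem result :
    (∀ C : ℚ, ∃ (n : ℕ) (x : Fin n → ℚ), Rigid x ∧ StrictMono x ∧ (∀ i, 1 ≤ x i) ∧
      ∃ i j : Fin n, (j : ℕ) = i + 1 ∧ 1 ≤ |x i| ∧ C * |x i| < |x j|) ∧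
    Rigid ![(1 : ℚ), 4, 5, 8, 10, 16, 20] ∧
    ¬ (∀ (n : ℕ) (x : Fin n → ℚ), 2 ≤ n → Rigid x → Monotone (fun i => |x i|) →
      ∀ i j : Fin n, (j : ℕ) = i + 1 → 1 ≤ |x i| → |x j| ≤ 2 * |x i|) := by
  have key : ∀ C : ℚ, ∃ (n : ℕ) (x : Fin n → ℚ), 2 ≤ n ∧ Rigid x ∧ StrictMono x ∧
      (∀ i, 1 ≤ x i) ∧ ∃ i j : Fin n, (j : ℕ) = i + 1 ∧ 1 ≤ |x i| ∧ C * |x i| < |x j| := by
    intro C
    obtain ⟨k, hk⟩ := pow_unbounded_of_one_lt C (by norm_num : (1 : ℚ) < 2)
    have hC : C < 2 ^ (k + 1) := lt_of_lt_of_le hk (pow_le_pow_right₀ (by norm_num) (by omega))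
    refine ⟨2 * (k + 1) + 3, fun i => X (k + 1) i, by omega, rigid_X _, ?_, ?_, ?_⟩
    · intro i j hij
      exact strictMono_nat_of_lt_succ (fun m => (X_lt (k + 1) (by omega) m).2) hij
    · intro i
      exact (X_lt (k + 1) (by omega) i).1
    · refine ⟨⟨0, by omega⟩, ⟨1, by omega⟩, rfl, ?_, ?_⟩
      · show (1 : ℚ) ≤ |1|
        simp
      · show C * |(1 : ℚ)| < |(2 : ℚ) ^ (k + 1)|
        rw [abs_one, mul_one, abs_of_pos (by positivity)]
        exact hC
  refine ⟨fun C => ?_, ?_, ?_⟩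
  · obtain ⟨n, x, _, h1, h2, h3, h4⟩ := key C
    exact ⟨n, x, h1, h2, h3, h4⟩
  · intro y h1 h2
    have e0 : y 0 = 1 := h1 0 rfl
    have e1 := h2 0 1 2 (by show (1 : ℚ) + 4 = 5; norm_num)
    have e2 := h2 1 1 3 (by show (4 : ℚ) + 4 = 8; norm_num)
    have e3 := h2 3 3 5 (by show (8 : ℚ) + 8 = 16; norm_num)
    have e4 := h2 2 2 4 (by show (5 : ℚ) + 5 = 10; norm_num)
    have e5 := h2 4 4 6 (by show (10 : ℚ) + 10 = 20; norm_num)
    have e6 := h2 1 5 6 (by show (4 : ℚ) + 16 = 20; norm_num)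
    have f1 : y 1 = 4 := by linarith
    funext i
    fin_cases i
    · exact e0
    · exact f1
    · show y 2 = 5; linarith
    · show y 3 = 8; linarith
    · show y 4 = 10; linarith
    · show y 5 = 16; linarith
    · show y 6 = 20; linarith
  · intro hall
    obtain ⟨n, x, hn, h1, h2, h3, i, j, hij, h4, h5⟩ := key 2
    have h6 : Monotone (fun i => |x i|) := by
      intro a b hab
      show |x a| ≤ |x b|
      rw [abs_of_nonneg (by linarith [h3 a]), abs_of_nonneg (by linarith [h3 b])]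
      exact h2.monotone hab
    exact absurd (hall n x hn h1 h6 i j hij h4) (not_le.2 h5)

end Pool.Agent.Results.MP_ee20a5_al.UnboundedGaps
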